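import Mathlib
import Pool.Agent.Lib.helper31.Lkf

open Set Filter Topology Real MeasureTheory

namespace Pool.Agent.Results.MP_9da05b_an.Counterexample

/-- The state space `C([-T_d,0],ℝ)` with `T_d = 2π`, sup norm. -/
abbrev X := C(Icc (-(2 * π)) (0 : ℝ), ℝ)

/-- A state read as a function on `ℝ` (constant outside `[-T_d,0]`); `ext x 0 = x(0)`. -/
noncomputable def ext (x : X) : ℝ → ℝ := IccExtend (by linarith [pi_pos]) x

lemma ext_cont (x : X) : Continuous (ext x) := x.continuous.Icc_extend'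

/-- `φ*(t,x,v)` with slope `w = f(x,v)`. -/
noncomputable def star (x : X) (w t : ℝ) : X :=
  ⟨fun s => ext x (s + t) + w * max (s + t) 0, by have := ext_cont x; fun_prop⟩

/-- The Driver derivative. -/
noncomputable def driver (f : X → ℝ → ℝ) (V : X → ℝ) (x : X) (v : ℝ) : EReal :=
  limsup (fun t : ℝ => (((V (star x (f x v) t) - V x) / t : ℝ) : EReal)) (𝓝[>] 0)

/-- Upper right Dini derivative. -/
noncomputable def dini (w : ℝ → ℝ) (t : ℝ) : EReal :=
  limsup (fun h : ℝ => (((w (t + h) - w t) / h : ℝ) : EReal)) (𝓝[>] 0)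

/-- `φ t = x_t` is the state trajectory of a (Caratheodory) solution on `[0,b)` from `x`. -/
def IsSol (f : X → ℝ → ℝ) (x : X) (u : ℝ → ℝ) (b : ℝ) (φ : ℝ → X) : Prop :=
  ∀ t ∈ Ico 0 b, IntervalIntegrable (fun r => f (φ r) (u r)) volume 0 t ∧
    ∀ s, φ t s = ext x (s + t) + ∫ r in (0 : ℝ)..(max (s + t) 0), f (φ r) (u r)

def ClassK (g : ℝ → ℝ) : Prop := ContinuousOn g (Ici 0) ∧ StrictMonoOn g (Ici 0) ∧ g 0 = 0
def ClassKinf (g : ℝ → ℝ) : Prop := ClassK g ∧ Tendsto g atTop atTop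
def ClassKL (β : ℝ → ℝ → ℝ) : Prop :=
  (∀ t, 0 ≤ t → ClassK (fun r => β r t)) ∧
    ∀ r, 0 ≤ r → AntitoneOn (β r) (Ici 0) ∧ Tendsto (β r) atTop (𝓝 0)

/-- A measurable input bounded by `M`. -/
def Input (u : ℝ → ℝ) (M : ℝ) : Prop := Measurable u ∧ ∀ t, |u t| ≤ M

/-- The ISS estimate along all global solutions. -/
def ISSEstimate (f : X → ℝ → ℝ) : Prop :=
  ∃ β γ, ClassKL β ∧ ClassKinf γ ∧ ∀ x u M φ, Input u M → (∀ b, IsSol f x u b φ) →
    ∀ t, 0 ≤ t → |ext (φ t) 0| ≤ β ‖x‖ t + γ M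

/-- The regularity condition. -/
def Regular (f : X → ℝ → ℝ) (V : X → ℝ) : Prop :=
  ∀ x u M b φ, Input u M → IsSol f x u b φ →
    (∀ c ∈ Ico 0 b, AbsolutelyContinuousOnInterval (fun t => V (φ t)) 0 c) ∧
    ∀ᵐ t, t ∈ Ico 0 b → dini (fun t => V (φ t)) t = driver f V (φ t) (u t)

open Pool.Agent.Lib.helper31.Lkf

lemma ext_of (x : X) {s : ℝ} (hs : s ∈ Icc (-(2 * π)) 0) : ext x s = x ⟨s, hs⟩ :=
  IccExtend_of_mem _ _ hs
lemma ext_hi (x : X) {s : ℝ} (hs : 0 ≤ s) : ext x s = ext x 0 := by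
  unfold ext; rw [IccExtend_of_right_le _ _ hs, IccExtend_of_right_le _ _ le_rfl]
lemma ext_lip (x y : X) (s : ℝ) : |ext x s - ext y s| ≤ ‖x - y‖ := (x - y).norm_coe_le_norm _
lemma ext_bd (x : X) (s : ℝ) : |ext x s| ≤ ‖x‖ := x.norm_coe_le_norm _

noncomputable def J (x : X) : ℝ := Jf (ext x) 0
noncomputable def I (x : X) : ℝ := If (ext x) 0
noncomputable def Y (x : X) : ℝ := ∫ s in (0 - π)..0, ext x s
noncomputable def G (x : X) : ℝ := p (ext x 0) ^ 2 * exp (I (-x))
noncomputable def V (x : X) : ℝ := G x + G (-x)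
noncomputable def F (x : X) : ℝ := -(p (ext x 0) * (p (1 - J (-x)) + Y x))
noncomputable def f (x : X) (v : ℝ) : ℝ := F x - F (-x) + v
noncomputable def D (x : X) (w : ℝ) : ℝ :=
  DG (ext x 0) w (J (-x)) (I (-x)) + DG (-ext x 0) (-w) (J x) (I x)

lemma shift {x : X} {y : ℝ → ℝ} {t : ℝ} (h : ∀ s, x s = y (s + t)) :
    ext x 0 = y t ∧ J x = Jf y t ∧ I x = If y t ∧ Y x = ∫ s in (t - π)..t, y s := by
  have pi := pi_pos
  have e : ∀ s ∈ Icc (-(2 * π)) 0, ext x s = y (s + t) := fun s hs => by rw [ext_of x hs, h]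
  refine ⟨by simpa using e 0 ⟨by linarith, le_rfl⟩, ?_, ?_, ?_⟩
  · unfold J Jf
    rw [intervalIntegral.integral_congr (g := fun s => p (y (s + t))) (fun s hs => by
      rw [uIcc_of_le (by linarith)] at hs
      simp only [e s (by simpa using hs)]),
      intervalIntegral.integral_comp_add_right (fun s => p (y s)) t]
    congr 1 <;> ring
  · unfold I If
    rw [intervalIntegral.integral_congr (g := fun s => (2 * π + (s + t) - t) * p (y (s + t)))
      (fun s hs => by
        rw [uIcc_of_le (by linarith)] at hs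
        simp only [e s (by simpa using hs)]; ring),
      intervalIntegral.integral_comp_add_right (fun s => (2 * π + s - t) * p (y s)) t]
    congr 2 <;> ring
  · unfold Y
    rw [intervalIntegral.integral_congr (g := fun s => y (s + t)) (fun s hs => by
      rw [uIcc_of_le (by linarith)] at hs
      exact e s ⟨by linarith [hs.1], hs.2⟩), intervalIntegral.integral_comp_add_right y t]
    congr 1 <;> ring

lemma V_eq {x : X} {y : ℝ → ℝ} {t : ℝ} (h : ∀ s, x s = y (s + t)) :
    V x = Gf y t + Gf (fun s => -y s) t := by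
  have a := shift h
  have b := shift (x := -x) (y := fun s => -y s) (t := t) (fun s => by simp [h])
  simp only [V, G, Gf, neg_neg, a.1, b.1, a.2.2.1, b.2.2.1]

lemma key {x : X} {y : ℝ → ℝ} {t w : ℝ} (z : ℝ → X) (hy : Continuous y)
    (hd : HasDerivWithinAt y w (Ici t) t) (h : ∀ s, x s = y (s + t))
    (hz : ∀ᶠ r in 𝓝[>] (0:ℝ), ∀ s, z r s = y (s + (t + r))) :
    limsup (fun r : ℝ => (((V (z r) - V x) / r : ℝ) : EReal)) (𝓝[>] 0) = D x w := by
  have a := shift h
  have b := shift (x := -x) (y := fun s => -y s) (t := t) (fun s => by simp [h])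
  have d := (Gf_d y hy t w hd).add (Gf_d (fun s => -y s) hy.neg t (-w) hd.neg)
  have := limsup_eq d (fun r => (V (z r) - V x) / r) (by
    filter_upwards [hz] with r hr
    rw [V_eq hr, V_eq h]; rfl)
  rw [this]
  simp only [D, neg_neg, a.1, a.2.1, a.2.2.1, b.2.1, b.2.2.1]

lemma driver_eq (x : X) (v : ℝ) : driver f V x v = D x (f x v) := by
  refine key (y := fun s => ext x s + f x v * max s 0) (t := 0) _
    (by have := ext_cont x; fun_prop) ?_ (fun s => ?_) (Eventually.of_forall fun r s => ?_)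
  · refine (((hasDerivAt_id (0:ℝ)).const_mul (f x v)).const_add (ext x 0)).hasDerivWithinAt.congr_deriv
      (mul_one _) |>.congr (fun s hs => ?_) (by simp)
    simp only [ext_hi x hs, max_eq_left (mem_Ici.1 hs), id]
  · simp [ext_of x s.2, max_eq_right s.2.2]
  · simp [star]

lemma regular : Regular f V := by
  intro x u M b φ _ hs
  set g := fun r => f (φ r) (u r) with hg
  have main : ∀ c ∈ Ico 0 b, ∃ y : ℝ → ℝ, Continuous y ∧
      (∀ t ∈ Icc 0 c, y t = ext x 0 + ∫ r in (0:ℝ)..t, g r) ∧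
      ∀ t ∈ Icc 0 c, ∀ s, φ t s = y (s + t) := by
    intro c hc
    refine ⟨fun τ => ext x τ + ∫ r in (0:ℝ)..(min (max τ 0) c), g r, (ext_cont x).add ?_,
      fun t ht => ?_, fun t ht s => ?_⟩
    · refine (intervalIntegral.continuousOn_primitive_interval' (hs c hc).1
        left_mem_uIcc).comp_continuous (by fun_prop) fun τ => ?_
      rw [uIcc_of_le hc.1]
      exact ⟨le_min (le_max_right _ _) hc.1, min_le_right _ _⟩
    · simp only [ext_hi x ht.1, max_eq_left ht.1, min_eq_left ht.2]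
    · rw [(hs t ⟨ht.1, ht.2.trans_lt hc.2⟩).2 s]
      simp only
      rw [min_eq_left (max_le (by linarith [s.2.2, ht.2]) hc.1)]
  refine ⟨fun c hc => ?_, ?_⟩
  · obtain ⟨y, hy, h1, h2⟩ := main c hc
    have a : AbsolutelyContinuousOnInterval y 0 c := by
      refine ac_congr (fun t ht => ?_) ((contDiff_const (c := ext x 0)).contDiffOn.absolutelyContinuousOnInterval.add
        ((hs c hc).1.absolutelyContinuousOnInterval_intervalIntegral left_mem_uIcc))
      rw [uIcc_of_le hc.1] at ht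
      rw [h1 t ht]; rfl
    refine ac_congr (fun t ht => ?_) ((Gf_ac y hy a).add (Gf_ac _ hy.neg a.neg))
    rw [uIcc_of_le hc.1] at ht
    simp only [V_eq (h2 t ht)]; rfl
  · have : ∀ q : ℚ, ∀ᵐ t : ℝ, (q:ℝ) ∈ Ico 0 b → t ∈ uIcc 0 (q:ℝ) →
        HasDerivAt (fun t => ∫ r in (0:ℝ)..t, g r) (g t) t := fun q => by
      by_cases hq : (q:ℝ) ∈ Ico 0 b
      · filter_upwards [(hs q hq).1.ae_hasDerivAt_integral] with t ht _ h2
        exact ht h2 0 left_mem_uIcc
      · exact Eventually.of_forall fun t h => absurd h hq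
    filter_upwards [ae_all_iff.2 this] with t ht htb
    obtain ⟨q, q1, q2⟩ := exists_rat_btwn htb.2
    have hq : (q:ℝ) ∈ Ico 0 b := ⟨htb.1.trans q1.le, q2⟩
    obtain ⟨y, hy, h1, h2⟩ := main q hq
    have d := ht q hq (by rw [uIcc_of_le hq.1]; exact ⟨htb.1, q1.le⟩)
    rw [driver_eq]
    refine key (y := y) (fun r => φ (t + r)) hy ?_ (h2 t ⟨htb.1, q1.le⟩) ?_
    · refine (d.const_add (ext x 0)).hasDerivWithinAt.congr_of_eventuallyEq ?_ (h1 t ⟨htb.1, q1.le⟩)
      filter_upwards [Ico_mem_nhdsGE q1] with s hs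
      exact h1 s ⟨htb.1.trans hs.1, hs.2.le⟩
    · filter_upwards [Ioo_mem_nhdsGT (show (0:ℝ) < q - t by linarith)] with r hr
      exact h2 (t + r) ⟨by linarith [htb.1, hr.1], by linarith [hr.2]⟩

lemma int_lip (k q : ℝ → ℝ) (hk : Continuous k) (hq : ∀ a b, |q a - q b| ≤ |a - b|) (hc : Continuous q)
    (a C : ℝ) (hC : ∀ s ∈ uIoc a 0, |k s| ≤ C) (x y : X) :
    |(∫ s in a..0, k s * q (ext x s)) - ∫ s in a..0, k s * q (ext y s)| ≤ C * ‖x - y‖ * |0 - a| := by
  have c : ∀ x : X, Continuous fun s => k s * q (ext x s) := fun x => hk.mul (hc.comp (ext_cont x))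
  rw [← intervalIntegral.integral_sub ((c x).intervalIntegrable _ _) ((c y).intervalIntegrable _ _)]
  rw [← Real.norm_eq_abs]
  refine intervalIntegral.norm_integral_le_of_norm_le_const fun s hs => ?_
  rw [← mul_sub, norm_mul]
  exact mul_le_mul (hC s hs) ((hq _ _).trans (ext_lip x y s)) (norm_nonneg _)
    ((abs_nonneg _).trans (hC s hs))

lemma J_lip (x y : X) : |J x - J y| ≤ 2 * π * ‖x - y‖ := by
  have := int_lip (fun _ => 1) p continuous_const p_lip p_cont (0 - 2 * π) 1 (by simp) x y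
  simp only [one_mul] at this
  rw [show (0:ℝ) - (0 - 2 * π) = 2 * π by ring, abs_of_pos two_pi_pos] at this
  exact this.trans_eq (mul_comm _ _)

lemma Y_lip (x y : X) : |Y x - Y y| ≤ π * ‖x - y‖ := by
  have := int_lip (fun _ => 1) id continuous_const (fun _ _ => le_rfl) continuous_id (0 - π) 1
    (by simp) x y
  simp only [one_mul] at this
  rw [show (0:ℝ) - (0 - π) = π by ring, abs_of_pos pi_pos, mul_comm] at this
  exact this

lemma I_lip (x y : X) : |I x - I y| ≤ 16 * π ^ 2 * ‖x - y‖ := by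
  have pi := pi_pos
  have := int_lip (fun s => 2 * π + s - 0) p (by fun_prop) p_lip p_cont (0 - 2 * π) (2 * π)
    (fun s hs => by
      rw [uIoc_of_le (by linarith)] at hs
      rw [abs_le]; constructor <;> linarith [hs.1, hs.2]) x y
  rw [show (0:ℝ) - (0 - 2 * π) = 2 * π by ring, abs_of_pos two_pi_pos] at this
  unfold I If
  rw [← mul_sub, abs_mul, abs_of_pos (by norm_num : (0:ℝ) < 4)]
  linarith

lemma cont_of (g : X → ℝ) (L : ℝ) (h : ∀ x y, |g x - g y| ≤ L * ‖x - y‖) : Continuous g :=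
  (LipschitzWith.of_dist_le' (K := L) fun x y => by rw [dist_eq_norm x y]; exact h x y).continuous

lemma ext0 (s : ℝ) : ext 0 s = 0 := rfl
lemma J0 : J 0 = 0 := by simp [J, Jf, ext0, p]
lemma I0 : I 0 = 0 := by simp [I, If, ext0, p]
lemma Y0 : Y 0 = 0 := by simp [Y, ext0]

lemma I_nonneg (x : X) : 0 ≤ I x := by
  have pi := pi_pos
  refine mul_nonneg (by norm_num) (intervalIntegral.integral_nonneg (by linarith) fun s hs => ?_)
  exact mul_nonneg (by linarith [hs.1]) (p_nonneg _)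

lemma YJ (x : X) : -Y x ≤ J (-x) := by
  have pi := pi_pos
  have c : Continuous (fun s => p (ext (-x) s)) := p_cont.comp (ext_cont _)
  unfold J Jf Y
  rw [← intervalIntegral.integral_add_adjacent_intervals (b := 0 - π) (c.intervalIntegrable _ _)
    (c.intervalIntegrable _ _), ← intervalIntegral.integral_neg]
  have a1 : 0 ≤ ∫ s in (0 - 2 * π)..(0 - π), p (ext (-x) s) :=
    intervalIntegral.integral_nonneg (by linarith) fun s _ => p_nonneg _
  have a2 : ∫ s in (0 - π)..0, -ext x s ≤ ∫ s in (0 - π)..0, p (ext (-x) s) :=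
    intervalIntegral.integral_mono (by linarith) ((ext_cont x).neg.intervalIntegrable _ _)
      (c.intervalIntegrable _ _) fun s => p_ge _
  linarith

lemma F_lip (R : ℝ) (x y : X) (hx : ‖x‖ ≤ R) (hy : ‖y‖ ≤ R) :
    |F x - F y| ≤ (1 + 6 * π * R) * ‖x - y‖ := by
  have pi := pi_pos
  have n := norm_nonneg (x - y)
  have a1 := (p_lip _ _).trans (ext_lip x y 0)
  have a2 := (p_abs _).trans ((ext_bd y 0).trans hy)
  have j := J_lip (-y) (-x)
  rw [show -y - -x = x - y by abel] at j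
  have a3 : |p (1 - J (-x)) + Y x - (p (1 - J (-y)) + Y y)| ≤ 3 * π * ‖x - y‖ := by
    have := p_lip (1 - J (-x)) (1 - J (-y))
    rw [show 1 - J (-x) - (1 - J (-y)) = J (-y) - J (-x) by ring] at this
    have h := abs_le.1 (Y_lip x y)
    have h' := abs_le.1 (this.trans j)
    rw [abs_le]
    constructor <;> linarith [h'.1, h'.2, h.1, h.2]
  have a4 : |p (1 - J (-x)) + Y x| ≤ 1 + 3 * π * R := by
    have h1 := p_abs (1 - J (-x))
    have h2 := J_lip (-x) 0
    have h3 := Y_lip x 0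
    rw [J0, sub_zero, sub_zero, norm_neg] at h2
    rw [Y0, sub_zero, sub_zero] at h3
    have h4 := abs_sub (1:ℝ) (J (-x))
    have h5 := abs_add_le (p (1 - J (-x))) (Y x)
    rw [abs_one] at h4
    nlinarith
  have e : F x - F y = -((p (ext x 0) - p (ext y 0)) * (p (1 - J (-x)) + Y x)
      + p (ext y 0) * (p (1 - J (-x)) + Y x - (p (1 - J (-y)) + Y y))) := by unfold F; ring
  rw [e, abs_neg]
  refine (abs_add_le _ _).trans ?_
  rw [abs_mul, abs_mul]
  have b1 := mul_le_mul a1 a4 (abs_nonneg _) n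
  have b2 := mul_le_mul a2 a3 (abs_nonneg _) ((norm_nonneg y).trans hy)
  linarith

lemma not_iss : ¬ ISSEstimate f := by
  rintro ⟨β, γ, hβ, -, h⟩
  set K : ℝ := 2 * |γ 10| + 4 with hK
  have K2 : 2 ≤ K := by linarith [abs_nonneg (γ 10)]
  have c := Xk_cont K
  let φ : ℝ → X := fun t => ⟨fun s => Xk K (s + t), by fun_prop⟩
  let u : ℝ → ℝ := fun t => X1 K t + |Xk K t| * Yk K t
  have hf : ∀ t, f (φ t) (u t) = X1 K t := fun t => by
    have a := shift (x := φ t) (y := Xk K) (t := t) (fun s => rfl)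
    have b := shift (x := -φ t) (y := fun s => -Xk K s) (t := t) (fun s => rfl)
    simp only [f, F, neg_neg, a.1, a.2.1, a.2.2.2, b.1, b.2.1, b.2.2.2, u,
      intervalIntegral.integral_neg, int_X]
    rw [p_of_nonpos (sub_nonpos.2 (J_ge K2 t)), p_of_nonpos (sub_nonpos.2 (J_ge' K2 t)), ← p_add]
    ring
  have hu : Continuous u := by
    have := X1_cont K; have := Yk_cont K; fun_prop
  have sol : ∀ b, IsSol f (φ 0) u b φ := fun b t ht => by
    simp only [hf]
    refine ⟨(X1_cont K).intervalIntegrable _ _, fun s => ?_⟩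
    rw [intervalIntegral.integral_eq_sub_of_hasDerivAt (fun r _ => Xk_d K r)
      ((X1_cont K).intervalIntegrable _ _)]
    rcases le_total (s + t) 0 with h1 | h1
    · rw [ext_of _ ⟨by linarith [s.2.1, ht.1], h1⟩, max_eq_right h1]
      simp [φ]
    · rw [ext_hi _ h1, max_eq_left h1, (shift (x := φ 0) (y := Xk K) (t := 0) (fun s => rfl)).1]
      simp [φ]
  have t1 : Tendsto (fun n : ℕ => (n:ℝ) * (2 * π)) atTop atTop :=
    tendsto_natCast_atTop_atTop.atTop_mul_const two_pi_pos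
  have t2 := (((hβ.2 ‖φ 0‖ (norm_nonneg _)).2.comp t1).add_const (γ 10))
  have := ge_of_tendsto' t2 (b := K ^ 2 / 4) fun n => by
    have := h (φ 0) u 10 φ ⟨hu.measurable, u_bd K2⟩ sol (n * (2 * π)) (by positivity)
    rw [(shift (x := φ (n * (2 * π))) (y := Xk K) (t := n * (2 * π)) (fun s => rfl)).1, Xk_big] at this
    exact (le_abs_self _).trans this
  nlinarith [le_abs_self (γ 10), abs_nonneg (γ 10)]

lemma sqK : ClassKinf (fun r => r ^ 2) :=
  ⟨⟨by fun_prop, fun a ha b _ h => pow_lt_pow_left₀ h ha two_ne_zero, by simp⟩,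
    tendsto_pow_atTop two_ne_zero⟩

theorem result :
    ∃ (f : X → ℝ → ℝ) (V : X → ℝ) (ψ₁ ψ₂ α χ : ℝ → ℝ),
      Continuous (Function.uncurry f) ∧ f 0 0 = 0 ∧
      (∀ R, ∃ L, ∀ x y v, ‖x‖ ≤ R → ‖y‖ ≤ R → |f x v - f y v| ≤ L * ‖x - y‖) ∧
      Continuous V ∧ Regular f V ∧
      ClassKinf ψ₁ ∧ ClassKinf ψ₂ ∧ ClassKinf α ∧ ClassK χ ∧
      (∀ x, ψ₁ |ext x 0| ≤ V x ∧ V x ≤ ψ₂ ‖x‖) ∧
      (∀ x v, χ |v| ≤ |ext x 0| → driver f V x v ≤ ((-α |ext x 0| : ℝ) : EReal)) ∧
      ¬ ISSEstimate f := by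
  have pi := pi_pos
  have c0 := cont_of (fun x => ext x 0) 1 fun x y => by simpa using ext_lip x y 0
  have cJ := cont_of J _ J_lip
  have cI := cont_of I _ I_lip
  have cY := cont_of Y _ Y_lip
  have cp := p_cont
  have cF : Continuous F := by unfold F; fun_prop
  have cG : Continuous G := by unfold G; fun_prop
  refine ⟨f, V, fun r => r ^ 2, fun r => r ^ 2 * exp (16 * π ^ 2 * r), fun r => r ^ 2,
    fun r => 2 * r, by unfold f Function.uncurry; fun_prop, by simp [f, F, ext0, p],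
    fun R => ⟨2 * (1 + 6 * π * R), fun x y v hx hy => ?_⟩, by unfold V; fun_prop, regular, sqK,
    ⟨⟨by fun_prop, fun a ha b _ h => ?_, by simp⟩, ?_⟩, sqK,
    ⟨by fun_prop, fun a _ b _ h => by linarith, by simp⟩, fun x => ?_, fun x v hv => ?_, not_iss⟩
  · have a := F_lip R x y hx hy
    have b := F_lip R (-y) (-x) (by simpa) (by simpa)
    rw [show -y - -x = x - y by abel] at b
    rw [show f x v - f y v = (F x - F y) + (F (-y) - F (-x)) by unfold f; ring]
    linarith [abs_add_le (F x - F y) (F (-y) - F (-x))]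
  · exact mul_lt_mul (pow_lt_pow_left₀ h ha two_ne_zero) (by gcongr) (exp_pos _) (sq_nonneg _)
  · refine tendsto_atTop_mono' _ ?_ (tendsto_pow_atTop two_ne_zero)
    filter_upwards [eventually_ge_atTop (0:ℝ)] with r hr
    exact le_mul_of_one_le_right (sq_nonneg r) (one_le_exp (by positivity))
  · have e : ext (-x) 0 = -ext x 0 := rfl
    have i1 := I_lip x 0
    have i2 := I_lip (-x) 0
    rw [I0, sub_zero, sub_zero] at i1 i2
    rw [norm_neg] at i2
    have j1 := exp_le_exp.2 ((le_abs_self _).trans i1)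
    have j2 := exp_le_exp.2 ((le_abs_self _).trans i2)
    have k1 := one_le_exp (I_nonneg x)
    have k2 := one_le_exp (I_nonneg (-x))
    have b : ext x 0 ^ 2 ≤ ‖x‖ ^ 2 := by
      rw [← sq_abs]; exact pow_le_pow_left₀ (abs_nonneg _) (ext_bd x 0) 2
    simp only [V, G, neg_neg, e, sq_abs]
    rcases le_total 0 (ext x 0) with h | h
    · rw [p_of_nonneg h, p_of_nonpos (neg_nonpos.2 h)]
      refine ⟨by nlinarith [sq_nonneg (ext x 0)], ?_⟩
      have := mul_le_mul b j2 (exp_pos _).le (sq_nonneg _)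
      nlinarith
    · rw [p_of_nonpos h, p_of_nonneg (neg_nonneg.2 h)]
      refine ⟨by nlinarith [sq_nonneg (ext x 0)], ?_⟩
      have := mul_le_mul b j1 (exp_pos _).le (sq_nonneg _)
      nlinarith
  · rw [driver_eq, EReal.coe_le_coe_iff]
    simp only [sq_abs] at hv ⊢
    have e : ext (-x) 0 = -ext x 0 := rfl
    unfold D
    rcases le_total 0 (ext x 0) with h | h
    · rw [DG_zero (neg_nonpos.2 h), add_zero]
      rw [abs_of_nonneg h] at hv
      refine DG_le h (I_nonneg _) (YJ x) hv ?_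
      simp only [f, F, e, p_of_nonneg h, p_of_nonpos (neg_nonpos.2 h)]; ring
    · rw [DG_zero h, zero_add, ← neg_sq]
      rw [abs_of_nonpos h, ← abs_neg v] at hv
      have yj := YJ (-x)
      rw [neg_neg] at yj
      refine DG_le (neg_nonneg.2 h) (I_nonneg _) yj hv ?_
      simp only [f, F, e, neg_neg, p_of_nonpos h, p_of_nonneg (neg_nonneg.2 h)]; ring

end Pool.Agent.Results.MP_9da05b_an.Counterexample
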